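import Pool.Agent.H.MP_8f7167_an.Main

namespace Pool.Agent.H.MP_a56edf_an

open Finset Filter Topology
open Pool.Agent.H.MP_f9d380_an (L1 u u_app norm_u smul_u compl sum_app)
open Pool.Agent.H.MP_8f7167_an (ev ev_app)

noncomputable def θ (k : ℕ) : ℝ := 1 / ((k : ℝ) + 1)

theorem θ_pos (k : ℕ) : 0 < θ k := Nat.one_div_pos_of_nat

theorem θ_le (k : ℕ) : θ k ≤ 1 := Nat.one_div_le_one_div (Nat.zero_le k) |>.trans (by simp)

noncomputable def b : ℕ → L1 →L[ℝ] ℝ
  | 0 => (20 : ℝ) • ev 0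
  | n + 1 => (1 / 2 ^ n : ℝ) • (ev 1 - θ (Nat.unpair n).1 • ev 0 + ev (n + 2))

theorem b_succ (n : ℕ) (y : L1) :
    b (n + 1) y = 1 / 2 ^ n * (y 1 - θ (Nat.unpair n).1 * y 0 + y (n + 2)) := rfl

theorem co_le (y : L1) (i : ℕ) : |y i| ≤ ‖y‖ := lp.norm_apply_le_norm one_ne_zero y i

theorem b_sum : Summable fun n => (b n).smulRight (u n) := by
  refine (summable_nat_add_iff 1).1 (.of_norm_bounded (summable_geometric_two' 6) fun n => ?_)
  refine ContinuousLinearMap.opNorm_le_bound _ (by positivity) fun y => ?_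
  rw [ContinuousLinearMap.smulRight_apply, norm_smul, norm_u, mul_one, b_succ, norm_mul,
    Real.norm_of_nonneg (by positivity), Real.norm_eq_abs]
  have h : |y 1 - θ (Nat.unpair n).1 * y 0 + y (n + 2)| ≤ 3 * ‖y‖ := by
    have h1 := abs_add_le (y 1 - θ (Nat.unpair n).1 * y 0) (y (n + 2))
    have h2 := abs_sub (y 1) (θ (Nat.unpair n).1 * y 0)
    rw [abs_mul, abs_of_pos (θ_pos _)] at h2
    nlinarith [co_le y 0, co_le y 1, co_le y (n + 2), θ_le (Nat.unpair n).1, abs_nonneg (y 0)]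
  exact (mul_le_mul_of_nonneg_left h (by positivity)).trans_eq (by ring)

noncomputable def A : L1 →L[ℝ] L1 := ∑' n, (b n).smulRight (u n)

theorem A_sum (y : L1) : HasSum (fun n => b n y • u n) (A y) :=
  b_sum.hasSum.mapL (ContinuousLinearMap.apply ℝ L1 y)

theorem A_app (y : L1) (k : ℕ) : A y k = b k y := by
  have h := (A_sum y).mapL (ev k)
  simp only [map_smul, ev_app, u_app, smul_eq_mul, mul_ite, mul_one, mul_zero] at h
  exact h.unique (by
    simpa using hasSum_single (f := fun n => if k = n then b n y else 0) k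
      fun n hn => if_neg hn.symm)

noncomputable def Φ : (L1 × L1) →L[ℝ] L1 :=
  ContinuousLinearMap.snd ℝ L1 L1 - A ∘L ContinuousLinearMap.fst ℝ L1 L1

def Y : Type := Φ.ker

noncomputable instance : NormedAddCommGroup Y := inferInstanceAs (NormedAddCommGroup Φ.ker)
noncomputable instance : NormedSpace ℝ Y := inferInstanceAs (NormedSpace ℝ Φ.ker)
instance : CompleteSpace Y := inferInstanceAs (CompleteSpace Φ.ker)

noncomputable def T : L1 →L[ℝ] Y :=
  ((ContinuousLinearMap.id ℝ L1).prod A).codRestrict Φ.ker fun a => by simp [Φ]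

noncomputable def U : Y →L[ℝ] L1 := ContinuousLinearMap.fst ℝ L1 L1 ∘L Φ.ker.subtypeL

theorem U_T (a : L1) : U (T a) = a := rfl

theorem T_U (f : Y) : T (U f) = f := Subtype.ext (Prod.ext rfl (sub_eq_zero.1 f.2).symm)

theorem norm_T (a : L1) : ‖T a‖ = max ‖a‖ ‖A a‖ := rfl

theorem U_le (f : Y) : ‖U f‖ ≤ ‖f‖ := le_max_left _ _

theorem norm_add_sum (y : L1) (s : Finset ℕ) (r : ℕ → ℝ) :
    ‖y + ∑ k ∈ s, r k • u k‖ = ‖y‖ + ∑ k ∈ s, (|y k + r k| - |y k|) := by
  have h1 := compl (y + ∑ k ∈ s, r k • u k) s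
  have e : ∀ k ∈ s, (y + ∑ k ∈ s, r k • u k : L1) k = y k + r k := fun k hk => by
    rw [lp.coeFn_add, Pi.add_apply, sum_app, if_pos hk]
  rw [sum_congr rfl (g := fun k => |y k + r k|) fun k hk => by rw [e k hk],
    sum_congr rfl (f := fun k => (y + ∑ k ∈ s, r k • u k : L1) k • u k)
      (g := fun k => (y k + r k) • u k) fun k hk => by rw [e k hk]] at h1
  simp only [add_smul, sum_add_distrib, add_sub_add_right_eq_sub] at h1
  rw [MP_f9d380_an.compl] at h1
  rw [sum_sub_distrib]; linarith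

noncomputable def Q (N : ℕ) : L1 →L[ℝ] L1 := ∑ i ∈ range N, (ev i).smulRight (u i)

theorem Q_app (N : ℕ) (y : L1) : Q N y = ∑ i ∈ range N, y i • u i := by
  rw [Q, _root_.sum_apply]; rfl

theorem Q_lim (y : L1) : Tendsto (fun N => Q N y) atTop (𝓝 y) := by
  simpa only [Q_app, smul_u] using (lp.hasSum_single (by simp) y).tendsto_sum_nat

theorem Q_le (N : ℕ) (y : L1) : ‖Q N y‖ ≤ ‖y‖ ∧ ‖y - Q N y‖ ≤ ‖y‖ := by
  have h1 := lp.norm_sum_single (p := 1) (E := fun _ : ℕ => ℝ) (by simp) y (range N)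
  have h2 := lp.sum_rpow_le_norm_rpow (p := 1) (by simp) y (range N)
  simp only [ENNReal.toReal_one, Real.rpow_one, ← smul_u] at h1 h2
  rw [Q_app, compl]
  exact ⟨h1.trans_le h2, sub_le_self _ (sum_nonneg fun _ _ => abs_nonneg _)⟩

theorem A_tail (N : ℕ) (y : L1) (h : ∀ i < N + 2, y i = 0) : ‖A y‖ ≤ 1 / 2 ^ N * ‖y‖ := by
  have hs := lp.hasSum_norm (p := 1) (by simp) y
  simp only [ENNReal.toReal_one, Real.rpow_one] at hs
  have h2 := (hasSum_nat_add_iff' 1).2 hs
  rw [range_one, sum_singleton, h 0 (by omega), norm_zero, sub_zero] at h2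
  refine (A_sum y).norm_le_of_bounded (h2.mul_left _) fun n => ?_
  rw [norm_smul, norm_u, mul_one]
  rcases n with _ | n
  · have : b 0 y = 20 * y 0 := rfl
    rw [this, h 0 (by omega), mul_zero, norm_zero]; positivity
  rw [b_succ, h 0 (by omega), h 1 (by omega), mul_zero, sub_zero, zero_add, norm_mul]
  by_cases hn : n < N
  · rw [h (n + 2) (by omega)]; simp
  · refine mul_le_mul_of_nonneg_right ?_ (norm_nonneg _)
    rw [Real.norm_of_nonneg (by positivity)]
    exact one_div_le_one_div_of_le (by positivity) (pow_le_pow_right₀ one_le_two (not_lt.1 hn))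

noncomputable def P (N : ℕ) : Y →L[ℝ] Y := T ∘L Q (N + 2) ∘L U

theorem P_norm (N : ℕ) : ‖P N‖ ≤ 1 + 1 / 2 ^ N := by
  refine ContinuousLinearMap.opNorm_le_bound _ (by positivity) fun f => ?_
  have h1 := Q_le (N + 2) (U f)
  have h2 := A_tail N (U f - Q (N + 2) (U f)) fun i hi => by
    rw [lp.coeFn_sub, Pi.sub_apply, Q_app, sum_app, if_pos (mem_range.2 hi), sub_self]
  have h3 := norm_sub_le (A (U f)) (A (U f - Q (N + 2) (U f)))
  have h4 : ‖A (U f)‖ ≤ ‖f‖ := (le_max_right _ _).trans_eq (congrArg norm (T_U f))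
  rw [← map_sub, sub_sub_cancel] at h3
  have h5 : (0 : ℝ) ≤ 1 / 2 ^ N := by positivity
  refine (norm_T (Q (N + 2) (U f))).trans_le ?_
  exact max_le (by nlinarith [U_le f, norm_nonneg f, h1.1])
    (by nlinarith [mul_le_mul_of_nonneg_left (h1.2.trans (U_le f)) h5])

theorem P_lim (f : Y) : Tendsto (fun N => P N f) atTop (𝓝 f) := by
  have := ((T.continuous.tendsto _).comp (Q_lim (U f))).comp (tendsto_add_atTop_nat 2)
  rwa [T_U] at this

theorem P_fin (N : ℕ) : FiniteDimensional ℝ (LinearMap.range (P N : Y →ₗ[ℝ] Y)) := by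
  have := FiniteDimensional.span_of_finite ℝ ((range (N + 2)).finite_toSet.image fun i => T (u i))
  refine Submodule.finiteDimensional_of_le
    (S₂ := Submodule.span ℝ ((fun i => T (u i)) '' (range (N + 2) : Finset ℕ))) ?_
  rintro _ ⟨f, rfl⟩
  change T (Q (N + 2) (U f)) ∈ _
  rw [Q_app, map_sum]
  exact Submodule.sum_mem _ fun i hi => by
    rw [map_smul]; exact Submodule.smul_mem _ _ (Submodule.subset_span ⟨i, hi, rfl⟩)

theorem P_idem (N : ℕ) : (P N).comp (P N) = P N := ContinuousLinearMap.ext fun f => by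
  change T (Q (N + 2) (Q (N + 2) (U f))) = T (Q (N + 2) (U f))
  rw [Q_app _ (Q _ _), Q_app]
  exact congrArg T (sum_congr rfl fun i hi => by rw [sum_app, if_pos hi])

instance : TopologicalSpace.SeparableSpace Y := by
  rw [← TopologicalSpace.isSeparable_univ_iff]
  refine (TopologicalSpace.IsSeparable.span (R := ℝ)
    (Set.countable_range fun i => T (u i)).isSeparable).closure.mono fun f _ => ?_
  refine mem_closure_of_tendsto (P_lim f) (.of_forall fun N => ?_)
  change T (Q (N + 2) (U f)) ∈ Submodule.span ℝ _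
  rw [Q_app, map_sum]
  exact Submodule.sum_mem _ fun i _ => by
    rw [map_smul]; exact Submodule.smul_mem _ _ (Submodule.subset_span ⟨i, rfl⟩)

theorem pap (δ : ℝ) (hδ : 0 < δ) (K : Set Y) (hK : IsCompact K) (ε : ℝ) (hε : 0 < ε) :
    ∃ N, ‖P N‖ ≤ 1 + δ ∧ ∀ x ∈ K, ‖P N x - x‖ ≤ ε := by
  obtain ⟨t, -, ht, h⟩ := hK.finite_cover_balls (show 0 < ε / 4 by positivity)
  have h1 : ∀ᶠ N in atTop, ∀ y ∈ t, ‖P N y - y‖ < ε / 4 := (eventually_all_finite ht).2 fun y _ =>
    (tendsto_iff_norm_sub_tendsto_zero.1 (P_lim y)).eventually (gt_mem_nhds (by positivity))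
  have h2 : ∀ᶠ N : ℕ in atTop, (1 / 2 : ℝ) ^ N < min δ 1 :=
    (tendsto_pow_atTop_nhds_zero_of_lt_one (by norm_num) (by norm_num)).eventually
      (gt_mem_nhds (lt_min hδ one_pos))
  obtain ⟨N, h3, h4⟩ := (h1.and h2).exists
  rw [one_div_pow, lt_min_iff] at h4
  refine ⟨N, by linarith [P_norm N, h4.1], fun x hx => ?_⟩
  obtain ⟨y, hy, h5⟩ := Set.mem_iUnion₂.1 (h hx)
  rw [Metric.mem_ball, dist_eq_norm] at h5
  have h6 := (P N).le_of_opNorm_le_of_le (show _ ≤ 2 by linarith [P_norm N, h4.2]) h5.le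
  have e : P N x - x = P N (x - y) + (P N y - y) - (x - y) := by rw [map_sub]; abel
  rw [e]
  linarith [norm_sub_le (P N (x - y) + (P N y - y)) (x - y), norm_add_le (P N (x - y)) (P N y - y),
    h3 y hy]

theorem jump (F : Finset ℕ) (s c : ℕ → ℝ) (hs : Function.Injective s) (hb : ∀ i, |s i| ≤ 2)
    (h : ∀ σ, |σ| ≤ 3 → (∀ i ∈ F, σ - s i ≠ 0) →
      ∑ i ∈ F, (SignType.sign (σ - s i) : ℝ) * c i = 0) (j : ℕ) (hj : j ∈ F) : c j = 0 := by
  have h1 : ∀ᶠ η in 𝓝[>] (0 : ℝ), ∀ i ∈ F.erase j, η < |s j - s i| :=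
    (eventually_all_finset _).2 fun i hi => nhdsWithin_le_nhds (gt_mem_nhds (abs_pos.2
      (sub_ne_zero.2 fun e => (mem_erase.1 hi).1 (hs e).symm)))
  obtain ⟨η, h2, h3, h4⟩ := (h1.and (Eventually.and (p := (· < 1))
    (nhdsWithin_le_nhds (gt_mem_nhds one_pos)) self_mem_nhdsWithin)).exists
  have h5 : (0 : ℝ) < η := h4
  have k : ∀ i ∈ F.erase j, (0 < s j + η - s i ∧ 0 < s j - η - s i) ∨
      (s j + η - s i < 0 ∧ s j - η - s i < 0) := fun i hi => by
    rcases lt_abs.1 (h2 i hi) with h6 | h6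
    · exact Or.inl ⟨by linarith, by linarith⟩
    · exact Or.inr ⟨by linarith, by linarith⟩
  have b := abs_le.1 (hb j)
  have p1 := h (s j + η) (abs_le.2 ⟨by linarith, by linarith⟩) fun i hi => by
    by_cases e : i = j
    · subst e; linarith
    · rcases k i (mem_erase.2 ⟨e, hi⟩) with h6 | h6 <;> linarith [h6.1]
  have p2 := h (s j - η) (abs_le.2 ⟨by linarith, by linarith⟩) fun i hi => by
    by_cases e : i = j
    · subst e; linarith
    · rcases k i (mem_erase.2 ⟨e, hi⟩) with h6 | h6 <;> linarith [h6.2]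
  rw [← add_sum_erase _ _ hj] at p1 p2
  rw [sum_congr rfl (g := fun i => (SignType.sign (s j - η - s i) : ℝ) * c i) fun i hi => by
    rcases k i hi with h6 | h6
    · rw [sign_pos h6.1, sign_pos h6.2]
    · rw [sign_neg h6.1, sign_neg h6.2], sign_pos (by linarith)] at p1
  rw [sign_neg (by linarith)] at p2
  simp only [SignType.coe_one, SignType.coe_neg_one] at p1 p2
  linarith

theorem roots (p q : L1) (hp : ‖p - u 0‖ ≤ 1 / 10) (hq : ‖q - u 1‖ ≤ 1 / 10) :
    ∃ s : ℕ → ℝ, (Set.range s).Infinite ∧ ∀ n, |s n| ≤ 2 ∧ ∃ β > 0, ∀ σ : ℝ,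
      b (n + 1) (p + σ • q) = β * (σ - s n) := by
  have c : ∀ (y : L1) k i, ‖y - u k‖ ≤ 1 / 10 → |y i - if i = k then 1 else 0| ≤ 1 / 10 :=
    fun y k i h => by rw [← u_app]; exact (co_le (y - u k) i).trans h
  have p0 := abs_le.1 (c p 0 0 hp)
  have p1 := abs_le.1 (c p 0 1 hp)
  have q0 := abs_le.1 (c q 1 0 hq)
  have q1 := abs_le.1 (c q 1 1 hq)
  norm_num at p0 p1 q0 q1
  have d : ∀ k, 8 / 10 ≤ q 1 - θ k * q 0 := fun k => by nlinarith [θ_pos k, θ_le k]
  refine ⟨fun n => -(p 1 - θ (Nat.unpair n).1 * p 0 + p (n + 2)) /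
    (q 1 - θ (Nat.unpair n).1 * q 0 + q (n + 2)), fun hf => ?_, fun n => ?_⟩
  · have z : ∀ (y : L1) k, Tendsto (fun m => y (Nat.pair k m + 2)) atTop (𝓝 0) := fun y k =>
      ((Summable.of_norm (by simpa using y.2.summable (by simp))).tendsto_atTop_zero.comp
        (tendsto_add_atTop_nat 2)).comp (tendsto_atTop_mono (Nat.right_le_pair k) tendsto_id)
    refine Set.infinite_range_of_injective
      (f := fun k => -(p 1 - θ k * p 0 + 0) / (q 1 - θ k * q 0 + 0)) (fun k l e => ?_)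
      (hf.subset ?_)
    · simp only [add_zero] at e
      rw [div_eq_div_iff (by linarith [d k]) (by linarith [d l])] at e
      have h1 : (θ k - θ l) * (p 0 * q 1 - p 1 * q 0) = 0 := by linarith
      have h2 := sub_eq_zero.1 ((mul_eq_zero.1 h1).resolve_right (by nlinarith))
      simpa [θ] using h2
    · rintro _ ⟨k, rfl⟩
      refine hf.isClosed.mem_of_tendsto ((((z p k).const_add _).neg).div ((z q k).const_add _)
        (by linarith [d k])) (.of_forall fun m => ⟨Nat.pair k m, by simp⟩)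
  · have p2 := abs_le.1 (c p 0 (n + 2) hp)
    have q2 := abs_le.1 (c q 1 (n + 2) hq)
    rw [if_neg (by omega), sub_zero] at p2 q2
    have d1 : 0 < q 1 - θ (Nat.unpair n).1 * q 0 + q (n + 2) := by linarith [d (Nat.unpair n).1]
    refine ⟨?_, 1 / 2 ^ n * (q 1 - θ (Nat.unpair n).1 * q 0 + q (n + 2)), by positivity,
      fun σ => ?_⟩
    · rw [abs_le, le_div_iff₀ d1, div_le_iff₀ d1]
      constructor <;> nlinarith [d (Nat.unpair n).1, θ_pos (Nat.unpair n).1, θ_le (Nat.unpair n).1]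
    · rw [map_add, map_smul, b_succ, b_succ, smul_eq_mul]
      field_simp
      ring

theorem no_proj (R : Y →L[ℝ] Y) (h1 : FiniteDimensional ℝ (LinearMap.range (R : Y →ₗ[ℝ] Y)))
    (h2 : R.comp R = R) (h3 : ‖R‖ ≤ 1) (hp : ‖R (T (u 0)) - T (u 0)‖ ≤ 1 / 10)
    (hq : ‖R (T (u 1)) - T (u 1)‖ ≤ 1 / 10) : False := by
  have hp' := (U_le _).trans hp
  have hq' := (U_le _).trans hq
  rw [map_sub, U_T] at hp' hq'
  obtain ⟨s, hs, hr⟩ := roots _ _ hp' hq'
  choose hb β β0 hβ using hr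
  choose j hj using fun i => (hs.natEmbedding _ i).2
  have sj : Function.Injective fun i => s (j i) := fun a c e =>
    (hs.natEmbedding _).injective (Subtype.ext (by rw [← hj, ← hj]; exact e))
  have jj : Function.Injective j := fun a c e => sj (congrArg s e)
  obtain ⟨F, g, h4, i0, hi, hg⟩ := not_linearIndependent_iff.1
    (Module.Finite.not_linearIndependent_of_infinite (R := ℝ)
      fun i => (⟨R (T (u (j i + 2))), _, rfl⟩ : LinearMap.range (R : Y →ₗ[ℝ] Y)))
  let z : L1 := ∑ i ∈ F, g i • u (j i + 2)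
  have Rz : R (T z) = 0 := by simpa [z] using congrArg Subtype.val h4
  have Az : ∀ t : ℝ, A (t • z) = ∑ k ∈ F.image (fun i => j i + 1), (t * b k z) • u k := fun t => by
    refine (A_sum _).unique ?_
    simp only [map_smul, smul_eq_mul]
    refine hasSum_sum_of_ne_finset_zero fun k hk => ?_
    have : b k z = 0 := by
      simp only [z, map_sum, map_smul]
      refine sum_eq_zero fun i h => ?_
      rcases k with _ | k
      · simp [b, ev_app, u_app]
      · have : k ≠ j i := fun e => hk (mem_image.2 ⟨i, h, by rw [e]⟩)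
        simp [b_succ, u_app, this]
    rw [this, mul_zero, zero_smul]
  have bz : b (j i0 + 1) z = 1 / 2 ^ j i0 * g i0 := by
    simp [z, b_succ, u_app, jj.eq_iff, hi, mul_comm]
  refine hg ((mul_eq_zero.1 (bz.symm.trans (jump F _ (fun i => b (j i + 1) z) sj
    (fun i => hb _) (fun σ h5 h6 => ?_) i0 hi))).resolve_left (by positivity))
  let y := U (R (T (u 0))) + σ • U (R (T (u 1)))
  have Ry : R (T y) = T y := by
    have := fun x => congrArg (· x) h2
    simp only [ContinuousLinearMap.comp_apply] at this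
    simp only [y, map_add, map_smul, T_U, this]
  have y0 : 12 ≤ ‖A y‖ := by
    have e : A y 0 = 20 * (U (R (T (u 0))) 0 + σ * U (R (T (u 1))) 0) := A_app y 0
    have a1 := abs_le.1 ((co_le _ 0).trans hp')
    have a2 := (co_le _ 0).trans hq'
    rw [lp.coeFn_sub, Pi.sub_apply, u_app] at a1 a2
    have a3 := mul_le_mul h5 a2 (abs_nonneg _) (by norm_num)
    rw [← abs_mul] at a3
    have a4 := (le_abs_self _).trans (co_le (A y) 0)
    norm_num at a1 a3
    nlinarith [neg_abs_le (σ * U (R (T (u 1))) 0), abs_mul σ (U (R (T (u 1))) 0)]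
  have y1 : ‖y‖ ≤ 5 := by
    have a1 := norm_le_insert' (U (R (T (u 0)))) (u 0)
    have a2 := norm_le_insert' (U (R (T (u 1)))) (u 1)
    have a3 := norm_add_le (U (R (T (u 0)))) (σ • U (R (T (u 1))))
    rw [norm_smul, Real.norm_eq_abs] at a3
    rw [norm_u] at a1 a2
    nlinarith [abs_nonneg σ]
  have hm : IsLocalMin (fun t : ℝ => ∑ i ∈ F, |b (j i + 1) y + t * b (j i + 1) z|) 0 := by
    have hc : Tendsto (fun t : ℝ => ‖y + t • z‖) (𝓝 0) (𝓝 ‖y + (0 : ℝ) • z‖) :=
      Continuous.tendsto (by fun_prop) _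
    filter_upwards [hc.eventually (gt_mem_nhds (show _ < 12 by simpa using y1.trans_lt (by norm_num)))]
      with t ht
    have a1 := R.le_of_opNorm_le_of_le h3 (le_refl ‖T (y + t • z)‖)
    rw [map_add T, map_add R, Ry, map_smul, map_smul, Rz, smul_zero, add_zero, one_mul, ← map_smul,
      ← map_add, norm_T, norm_T] at a1
    have a2 := (le_max_iff.1 ((le_max_right _ _).trans a1)).resolve_left (by linarith)
    rw [map_add A y, Az, norm_add_sum, sum_image fun a _ c _ e => jj (Nat.succ_injective e),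
      sum_sub_distrib] at a2
    simp only [A_app] at a2
    simp only [zero_mul, add_zero]
    linarith
  have hd := hm.hasDerivAt_eq_zero (HasDerivAt.fun_sum fun i hi =>
    (hasDerivAt_abs (by rw [zero_mul, add_zero, hβ]; exact mul_ne_zero (β0 _).ne' (h6 i hi))).comp
      (0 : ℝ) (((hasDerivAt_id' (0 : ℝ)).mul_const _).const_add _))
  refine (sum_congr rfl fun i _ => ?_).trans hd
  rw [zero_mul, add_zero, one_mul, hβ, sign_mul, sign_pos (β0 _), one_mul]

end Pool.Agent.H.MP_a56edf_an
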